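import Pool.Agent.MWT.Stmts

/-!
# MWT, row PJL: the projections of the main block of the big word
-/

set_option autoImplicit false

namespace Pool.Agent.MWT.H52

open Pool.Agent.Helper14_MV Pool.Agent.Helper2_MV Pool.Agent.MVD Pool.Agent.MWT

/-- the image of a thin letter -/
def zz (e t : ℕ) : List ℕ := if t = e then [0] else []

theorem pj_zz (e t : ℕ) (κ : ℕ → ℕ) (ht : t = 0 ∨ t = 3 ∨ t = 6) : pj e 1 κ t = zz e t := by
  rcases ht with rfl | rfl | rfl <;> simp [pj, zz]

theorem pj_cl (e k : ℕ) (κ : ℕ → ℕ) (a : ℕ) (hk : k < 7) (ha : a % 3 = 1 ∨ (a % 3 = 0 ∧ 6 ≤ a)) :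
    pj e 1 κ (cl k a) = if κ a = k then [a] else [] := by
  have h1 : cl k a = 3 * (7 * (a / 3) + k) + a % 3 := rfl
  rcases ha with ha | ⟨ha, ha6⟩
  · have h2 : cl k a % 3 = 1 := by rw [h1]; omega
    have h3 : 3 * (cl k a / 21) + 1 = a := by rw [h1]; omega
    have h4 : cl k a / 3 % 7 = k := by rw [h1]; omega
    have h5 : ¬ cl k a % 3 = 0 := by omega
    unfold pj
    rw [if_neg h5, if_pos h2, h3, h4]
  · have h2 : cl k a % 3 = 0 := by rw [h1]; omega
    have h3 : 3 * (cl k a / 21) = a := by rw [h1]; omega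
    have h4 : cl k a / 3 % 7 = k := by rw [h1]; omega
    have h5 : ¬ cl k a < 42 := by rw [h1]; omega
    unfold pj
    rw [if_pos h2, if_neg h5, h3, h4]

theorem cp_pj (e k : ℕ) (κ : ℕ → ℕ) (hk : k < 7) : ∀ c : List ℕ,
    (∀ a ∈ c, a % 3 = 1 ∨ (a % 3 = 0 ∧ 6 ≤ a)) →
      (cp k c).flatMap (pj e 1 κ) = c.filter (fun a => decide (κ a = k)) := by
  intro c
  induction c with
  | nil => intro _; rfl
  | cons a c ih =>
    intro h
    have h1 := ih (fun b hb => h b (List.mem_cons_of_mem _ hb))
    unfold cp at h1 ⊢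
    rw [List.map_cons, List.flatMap_cons, h1, pj_cl e k κ a hk (h a (by simp))]
    by_cases hk : κ a = k
    · simp [hk]
    · simp [hk]

theorem lw_pj (c : List ℕ) (e : ℕ) (κ : ℕ → ℕ)
    (h : ∀ a ∈ c, a % 3 = 1 ∨ (a % 3 = 0 ∧ 6 ≤ a)) (F : ℕ → List ℕ)
    (hF : ∀ k < 7, c.filter (fun a => decide (κ a = k)) = F k) :
    (Lw 1 1 c).flatMap (pj e 1 κ) = zz e 0 ++ (F 0 ++ (zz e 3 ++ (F 1 ++ (F 2 ++ (zz e 6 ++
      (F 3 ++ (zz e 0 ++ (F 4 ++ (zz e 3 ++ (F 5 ++ (F 6 ++ zz e 6))))))))))) := by
  have hc : ∀ k < 7, (cp k c).flatMap (pj e 1 κ) = F k := fun k hk => by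
    rw [cp_pj e k κ hk c h, hF k hk]
  have p0 : (P 1 0).flatMap (pj e 1 κ) = zz e 0 := by
    have : P 1 0 = [0] := rfl
    rw [this, List.flatMap_singleton, pj_zz e 0 κ (Or.inl rfl)]
  have p6 : (P 1 6).flatMap (pj e 1 κ) = zz e 6 := by
    have : P 1 6 = [6] := rfl
    rw [this, List.flatMap_singleton, pj_zz e 6 κ (Or.inr (Or.inr rfl))]
  unfold Lw
  simp only [List.flatMap_append, List.flatMap_cons, p0, p6, pj_zz e 3 κ (Or.inr (Or.inl rfl)),
    hc 0 (by norm_num), hc 1 (by norm_num), hc 2 (by norm_num), hc 3 (by norm_num),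
    hc 4 (by norm_num), hc 5 (by norm_num), hc 6 (by norm_num)]

theorem filt_aux (A C : List ℕ) (j k : ℕ) (hd : ∀ a ∈ A, a ∉ C) (hj : j ≠ 3) :
    A.filter (fun a => decide ((if a ∈ A then j else 3) = k)) = (if k = j then A else []) ∧
    C.filter (fun a => decide ((if a ∈ A then j else 3) = k)) = (if k = 3 then C else []) := by
  constructor
  · by_cases hk : k = j
    · rw [if_pos hk, List.filter_eq_self]
      intro a ha
      simp [ha, hk]
    · rw [if_neg hk, List.filter_eq_nil_iff]
      intro a ha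
      simp only [ha, if_true, decide_eq_true_eq]
      exact fun h => hk h.symm
  · by_cases hk : k = 3
    · rw [if_pos hk, List.filter_eq_self]
      intro a ha
      have h1 : a ∉ A := fun h => hd a h ha
      simp [h1, hk]
    · rw [if_neg hk, List.filter_eq_nil_iff]
      intro a ha
      have h1 : a ∉ A := fun h => hd a h ha
      simp only [h1, if_false, decide_eq_true_eq]
      exact fun h => hk h.symm

theorem pjl : PjlStmt := by
  intro n m c e hc he
  have h : ∀ a ∈ c, a % 3 = 1 ∨ (a % 3 = 0 ∧ 6 ≤ a) := by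
    intro a ha
    rcases hc.lo a ha with ⟨d, _, rfl⟩ | h1
    · left; omega
    · right; exact h1
  refine ⟨?_, ?_, ?_⟩
  · intro k hk
    have h1 := lw_pj c e (fun _ => k) h (fun k' => if k' = k then c else []) (by
      intro k' _
      by_cases hk' : k' = k
      · subst hk'; simp
      · rw [if_neg hk', List.filter_eq_nil_iff]
        intro a _
        simp only [decide_eq_true_eq]
        exact fun h => hk' h.symm)
    rw [h1]
    obtain ⟨ha, hb⟩ := hk
    rcases he with rfl | rfl | rfl
    · have hb' : k < 4 := by simpa [po] using hb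
      interval_cases k <;> simp [zz]
    · have ha' : 1 ≤ k := by simpa [po] using ha
      have hb' : k < 5 := by simpa [po] using hb
      interval_cases k <;> simp [zz]
    · have ha' : 3 ≤ k := by simpa [po] using ha
      have hb' : k < 7 := by simpa [po] using hb
      interval_cases k <;> simp [zz]
  · intro A C j hcA hd hj
    have h1 := lw_pj c e (fun a => if a ∈ A then j else 3) h
      (fun k' => if k' = j then A else if k' = 3 then C else []) (by
      intro k' _
      obtain ⟨f1, f2⟩ := filt_aux A C j k' hd (by omega)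
      rw [hcA, List.filter_append, f1, f2]
      by_cases hk : k' = j
      · have : k' ≠ 3 := by omega
        simp [hk, show j ≠ 3 by omega]
      · simp [hk])
    rw [h1]
    rcases he with rfl | rfl | rfl
    · interval_cases j <;> simp [zz, po, hcA]
    · interval_cases j <;> simp [zz, po, hcA]
    · interval_cases j <;> simp [zz, po]
  · intro C A j hcA hd hj3 hj7
    have h1 := lw_pj c e (fun a => if a ∈ A then j else 3) h
      (fun k' => if k' = j then A else if k' = 3 then C else []) (by
      intro k' _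
      obtain ⟨f1, f2⟩ := filt_aux A C j k' hd (by omega)
      rw [hcA, List.filter_append, f1, f2]
      by_cases hk : k' = j
      · simp [hk, show j ≠ 3 by omega]
      · simp [hk])
    rw [h1]
    rcases he with rfl | rfl | rfl
    · interval_cases j <;> simp [zz, po]
    · interval_cases j <;> simp [zz, po, hcA]
    · interval_cases j <;> simp [zz, po, hcA]

end Pool.Agent.MWT.H52
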